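import Pool.Agent.Helper39.EK.Energy
import Pool.Agent.Helper52.EK.Defs

/-!
E1a: the energy on the disc, and the lower bound for `N`.
-/

set_option autoImplicit false

open Complex MeasureTheory Metric Set Filter Topology
open scoped Real ENNReal ComplexConjugate NNReal

namespace Pool.Agent.Helper39.EK

open Pool.Agent.Helper39.Area Pool.Agent.Helper52.EK

/-- derivative of `log ((f z - f a) / ((1/z - 1/a) (1 - a z)))` -/
noncomputable def Dd (β : ℂ → ℂ) (a : ℝ) (z : ℂ) : ℂ :=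
  dphi β z / (phi β z - phi β a) - (-z⁻¹ + (z - a)⁻¹ - a / (1 - a * z))

/-- the logarithm of the divided difference -/
theorem exists_log {β : ℂ → ℂ} (h : Ext β) {a : ℂ} (ha : a ∈ ball (0:ℂ) 1) :
    ∃ F : ℂ → ℂ, F 0 = 0 ∧
      (∀ ζ ∈ ball (0:ℂ) 1, HasDerivAt F (deriv (qq β a) ζ / qq β a ζ) ζ) ∧
      ∀ ζ ∈ ball (0:ℂ) 1, Complex.exp (F ζ) = qq β a ζ := by
  have h0b : (0:ℂ) ∈ ball (0:ℂ) 1 := mem_ball_self one_pos
  have hqd := qq_diff h.diff ha
  have hQd : DifferentiableOn ℂ (fun ζ => deriv (qq β a) ζ / qq β a ζ) (ball 0 1) :=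
    (hqd.deriv isOpen_ball).div hqd (fun ζ hζ => qq_ne h ha hζ)
  obtain ⟨F, hF0, hF⟩ := hQd.isExactOn_ball.with_val_at 0 0
  refine ⟨F, hF0, hF, ?_⟩
  have hderiv : ∀ ζ ∈ ball (0:ℂ) 1, HasDerivAt (fun ζ => Complex.exp (-F ζ) * qq β a ζ) 0 ζ := by
    intro ζ hζ
    have h1 := ((hF ζ hζ).neg.cexp).mul ((hqd.differentiableAt (isOpen_ball.mem_nhds hζ)).hasDerivAt)
    have h2 := qq_ne h ha hζ
    have e : (0:ℂ) = Complex.exp (-F ζ) * -(deriv (qq β a) ζ / qq β a ζ) * qq β a ζ +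
        Complex.exp (-F ζ) * deriv (qq β a) ζ := by
      field_simp
      ring
    rw [e]
    exact h1
  intro ζ hζ
  have h1 : Complex.exp (-F ζ) * qq β a ζ = Complex.exp (-F 0) * qq β a 0 := by
    apply (convex_ball (0:ℂ) 1).is_const_of_fderivWithin_eq_zero (𝕜 := ℂ)
      (f := fun ζ => Complex.exp (-F ζ) * qq β a ζ) _ _ hζ h0b
    · intro ω hω
      exact (hderiv ω hω).differentiableAt.differentiableWithinAt
    · intro ω hω
      have h3 := (hderiv ω hω).hasFDerivAt.hasFDerivWithinAt (s := ball (0:ℂ) 1)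
      rw [h3.fderivWithin (isOpen_ball.uniqueDiffWithinAt hω)]
      ext
      simp
  rw [hF0, neg_zero, Complex.exp_zero, one_mul] at h1
  have h2 : qq β a 0 = 1 := by simp [qq]
  rw [h2, Complex.exp_neg] at h1
  have h3 := Complex.exp_ne_zero (F ζ)
  field_simp at h1
  exact h1.symm

theorem qq_self {β : ℂ → ℂ} (a : ℂ) : qq β a a = N β a := by
  rw [qq, dslope_same, N]
  ring

theorem N_ge {β : ℂ → ℂ} (h : Ext β) {z : ℂ} (hz : ‖z‖ < 1) : 1 - ‖z‖ ^ 2 ≤ ‖N β z‖ := by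
  have hz1 : z ∈ ball (0:ℂ) 1 := by simpa using hz
  obtain ⟨F, hF0, hF, hexp⟩ := exists_log h hz1
  have h1 := log_bound h hz1 hF hF0 hexp
  have h2 : 0 < 1 - ‖z‖ ^ 2 := by nlinarith [norm_nonneg z]
  rw [← qq_self, ← hexp z hz1, Complex.norm_exp]
  have h3 : -‖F z‖ ≤ (F z).re := by
    have := Complex.abs_re_le_norm (F z)
    exact (neg_le_neg this).trans (neg_abs_le _)
  calc 1 - ‖z‖ ^ 2 = Real.exp (Real.log (1 - ‖z‖ ^ 2)) := (Real.exp_log h2).symm
    _ ≤ Real.exp (F z).re := Real.exp_le_exp.mpr (by linarith)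

theorem E1a {β : ℂ → ℂ} (h : Ext β) {a ρ : ℝ} (ha : 0 < a) (haρ : a < ρ) (hρ : ρ < 1) :
    IntegrableOn (fun z : ℂ => ‖Dd β a z‖ ^ 2) (ball 0 ρ) ∧
    ∫ z in ball (0:ℂ) ρ, ‖Dd β a z‖ ^ 2 ≤ 2 * π * Real.log (‖N β a‖ / (1 - a ^ 2)) := by
  have hρ0 : 0 < ρ := ha.trans haρ
  have ha1 : ((a:ℝ):ℂ) ∈ ball (0:ℂ) 1 := by
    rw [mem_ball, dist_zero_right, Complex.norm_real, Real.norm_of_nonneg ha.le]
    linarith
  have ha0 : ((a:ℝ):ℂ) ≠ 0 := by exact_mod_cast ha.ne'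
  obtain ⟨F, hF0, hF, hexp⟩ := exists_log h ha1
  have hFd : DifferentiableOn ℂ F (ball 0 1) := fun ζ hζ =>
    (hF ζ hζ).differentiableAt.differentiableWithinAt
  set g : ℂ → ℝ := fun z => ‖deriv F z + conj (a:ℂ) / (1 - conj (a:ℂ) * z)‖ ^ 2 with hg
  have hgc : ContinuousOn g (closedBall 0 ρ) := by
    have hdc : ContinuousOn (deriv F) (closedBall 0 ρ) :=
      (hFd.deriv isOpen_ball).continuousOn.mono (closedBall_subset_ball hρ)
    apply ContinuousOn.pow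
    apply ContinuousOn.norm
    apply hdc.add
    apply ContinuousOn.div continuousOn_const (by fun_prop)
    intro z hz h0
    rw [mem_closedBall, dist_zero_right] at hz
    have h1 : conj (a:ℂ) * z = 1 := (sub_eq_zero.mp h0).symm
    have h2 : ‖conj (a:ℂ) * z‖ = 1 := by rw [h1, norm_one]
    rw [norm_mul, RCLike.norm_conj, Complex.norm_real, Real.norm_of_nonneg ha.le] at h2
    nlinarith [norm_nonneg z]
  have hgi : IntegrableOn g (ball 0 ρ) :=
    (hgc.integrableOn_compact (isCompact_closedBall _ _)).mono_set ball_subset_closedBall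
  have hae : (fun z : ℂ => ‖Dd β a z‖ ^ 2) =ᵐ[volume.restrict (ball (0:ℂ) ρ)] g := by
    have h1 : ∀ᵐ z : ℂ ∂(volume.restrict (ball (0:ℂ) ρ)), z ∈ ball (0:ℂ) ρ :=
      ae_restrict_mem measurableSet_ball
    have h2 : ∀ᵐ z : ℂ ∂(volume.restrict (ball (0:ℂ) ρ)), z ≠ 0 := by
      apply ae_restrict_of_ae
      exact measure_eq_zero_iff_ae_notMem.mp (measure_singleton (μ := (volume : Measure ℂ)) 0)
    have h3 : ∀ᵐ z : ℂ ∂(volume.restrict (ball (0:ℂ) ρ)), z ≠ a := by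
      apply ae_restrict_of_ae
      exact measure_eq_zero_iff_ae_notMem.mp (measure_singleton (μ := (volume : Measure ℂ)) (a:ℂ))
    filter_upwards [h1, h2, h3] with z hz hz0 hza
    have hz1 : z ∈ ball (0:ℂ) 1 := ball_subset_ball hρ.le hz
    rw [hg, Dd, dphi_div h ha1 hz1 ha0 hz0 hza]
    simp only
    rw [(hF z hz1).deriv, Complex.conj_ofReal]
    congr 2
    ring
  refine ⟨hgi.congr hae.symm, ?_⟩
  rw [integral_congr_ae hae]
  have h4 := energy h hρ0 hρ ha1 ha0 hF hF0 hexp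
  refine h4.trans (le_of_eq ?_)
  have h5 : ‖N β (a:ℂ)‖ = Real.exp (F a).re := by
    rw [← qq_self, ← hexp _ ha1, Complex.norm_exp]
  have h6 : (0:ℝ) < 1 - a ^ 2 := by nlinarith
  rw [h5, Real.log_div (Real.exp_pos _).ne' h6.ne', Real.log_exp, Complex.norm_real,
    Real.norm_of_nonneg ha.le]
  ring

end Pool.Agent.Helper39.EK
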