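import Pool.Agent.Helper39.EK.Dir
set_option autoImplicit false

open Complex MeasureTheory Metric Set Filter Topology
open scoped Real ENNReal ComplexConjugate NNReal

namespace Pool.Agent.Helper39.EK

open Pool.Agent.Helper39.Area

/-- Parseval for the derivative -/
theorem parseval_deriv {E : ℂ → ℂ} {R s : ℝ} (hE : DifferentiableOn ℂ E (ball 0 R)) (hs : 0 ≤ s)
    (hsR : s < R) :
    HasSum (fun n : ℕ => ‖((n:ℂ) + 1) * (iteratedDeriv (n + 1) E 0 / (n + 1).factorial)‖ ^ 2 *
        s ^ (2 * n))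
      ((1 / (2 * π)) * ∫ θ in (-π)..π, ‖deriv E ((s:ℂ) * Complex.exp (θ * I))‖ ^ 2) := by
  have hR : 0 < R := hs.trans_lt hsR
  have hd : DifferentiableOn ℂ (deriv E) (ball 0 R) := hE.deriv isOpen_ball
  have hsum : ∀ z : ℂ, ‖z‖ < R → HasSum (fun n : ℕ =>
      ((n:ℂ) + 1) * (iteratedDeriv (n + 1) E 0 / (n + 1).factorial) * z ^ n) (deriv E z) := by
    intro z hz
    have h := Complex.hasSum_taylorSeries_on_ball (c := 0) (r := R) (z := z) hd (by simpa using hz)
    have he : (fun n : ℕ => ((n:ℂ) + 1) * (iteratedDeriv (n + 1) E 0 / (n + 1).factorial) * z ^ n)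
        = fun n : ℕ => (n.factorial : ℂ)⁻¹ • (z - 0) ^ n • iteratedDeriv n (deriv E) 0 := by
      funext n
      simp only [smul_eq_mul, sub_zero]
      rw [← iteratedDeriv_succ', Nat.factorial_succ, Nat.cast_mul, Nat.cast_succ]
      have h1 : ((n : ℂ) + 1) ≠ 0 := Nat.cast_add_one_ne_zero n
      have h2 : ((n.factorial : ℕ) : ℂ) ≠ 0 := Nat.cast_ne_zero.mpr (Nat.factorial_ne_zero n)
      field_simp
    rw [he]
    exact h
  have hnorm : ∀ θ : ℝ, ‖(s : ℂ) * Complex.exp ((θ : ℂ) * I)‖ = s := by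
    intro θ
    rw [norm_mul, Complex.norm_exp_ofReal_mul_I, mul_one, Complex.norm_real,
      Real.norm_of_nonneg hs]
  apply Pool.Agent.Helper22.Marshall.parseval_aux
    (fun n : ℕ => ((n:ℂ) + 1) * (iteratedDeriv (n + 1) E 0 / (n + 1).factorial)) s hs
  · have h := (hsum (s : ℂ) (by rw [Complex.norm_real, Real.norm_of_nonneg hs]; exact hsR)).summable
    have h2 := h.norm
    refine h2.congr fun n => ?_
    rw [norm_mul _ ((s : ℂ) ^ n), norm_pow, Complex.norm_real, Real.norm_of_nonneg hs]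
  · intro θ
    exact hsum _ (by rw [hnorm]; exact hsR)

/-- the area form is at most the coefficient form -/
theorem area_le {E : ℂ → ℂ} {R ρ c : ℝ} (hE : DifferentiableOn ℂ E (ball 0 R)) (hρ : 0 < ρ)
    (hρR : ρ < R) (hc : ∀ N : ℕ, ∑ n ∈ Finset.range N,
        (n:ℝ) * ρ ^ (2 * n) * ‖iteratedDeriv n E 0 / n.factorial‖ ^ 2 ≤ c) :
    ∫ z in ball (0:ℂ) ρ, ‖deriv E z‖ ^ 2 ≤ π * c := by
  have hd : DifferentiableOn ℂ (deriv E) (ball 0 R) := hE.deriv isOpen_ball
  set e : ℕ → ℂ := fun n => iteratedDeriv n E 0 / n.factorial with he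
  set f : ℂ → ℝ := fun z => ‖deriv E z‖ ^ 2 with hf
  have hfc : ContinuousOn f (ball 0 R) := (hd.continuousOn.norm).pow 2
  -- polar coordinates
  have h1 : ∫ z in ball (0:ℂ) ρ, f z =
      ∫ s in Ioo 0 ρ, ∫ θ in Ioo (-π) π, s * f ((s:ℂ) * Complex.exp (θ * I)) := by
    rw [← integral_indicator measurableSet_ball, ← Complex.integral_comp_polarCoord_symm]
    have h2 : ∫ p in polarCoord.target, p.1 • (ball (0:ℂ) ρ).indicator f
        (Complex.polarCoord.symm p) = ∫ p in Ioo 0 ρ ×ˢ Ioo (-π) π,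
          p.1 * f ((p.1:ℂ) * Complex.exp (p.2 * I)) := by
      have h3 : ∀ p ∈ polarCoord.target, p.1 • (ball (0:ℂ) ρ).indicator f
          (Complex.polarCoord.symm p) = (Ioo 0 ρ ×ˢ Ioo (-π) π).indicator
            (fun p => p.1 * f ((p.1:ℂ) * Complex.exp (p.2 * I))) p := by
        rintro ⟨r, θ⟩ ⟨hr, hθ⟩
        simp only [mem_Ioi] at hr hθ
        have h4 : Complex.polarCoord.symm (r, θ) = (r:ℂ) * Complex.exp (θ * I) := by
          rw [Complex.polarCoord_symm_apply, Complex.exp_mul_I, Complex.ofReal_cos,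
            Complex.ofReal_sin]
        have h5 : ‖Complex.polarCoord.symm (r, θ)‖ = r := by
          rw [h4, norm_mul, Complex.norm_exp_ofReal_mul_I, mul_one, Complex.norm_real,
            Real.norm_of_nonneg hr.le]
        by_cases hrρ : r < ρ
        · rw [indicator_of_mem (by rw [mem_ball, dist_zero_right, h5]; exact hrρ),
            indicator_of_mem (show (r, θ) ∈ Ioo 0 ρ ×ˢ Ioo (-π) π from ⟨⟨hr, hrρ⟩, hθ⟩), h4,
            smul_eq_mul]
        · rw [indicator_of_notMem (by rw [mem_ball, dist_zero_right, h5]; exact hrρ),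
            indicator_of_notMem (fun h : (r, θ) ∈ Ioo 0 ρ ×ˢ Ioo (-π) π => hrρ h.1.2), smul_zero]
      rw [setIntegral_congr_fun polarCoord.open_target.measurableSet h3,
        setIntegral_indicator (measurableSet_Ioo.prod measurableSet_Ioo)]
      congr 2
      apply inter_eq_right.2
      rintro ⟨r, θ⟩ ⟨hr, hθ⟩
      exact ⟨hr.1, hθ⟩
    rw [h2, Measure.volume_eq_prod, setIntegral_prod]
    -- integrability
    have h6 : ContinuousOn (fun p : ℝ × ℝ => p.1 * f ((p.1:ℂ) * Complex.exp (p.2 * I)))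
        (Icc 0 ρ ×ˢ Icc (-π) π) := by
      apply continuous_fst.continuousOn.mul
      apply hfc.comp (by fun_prop)
      rintro ⟨r, θ⟩ ⟨hr, hθ⟩
      simp only [mem_ball, dist_zero_right, norm_mul, Complex.norm_exp_ofReal_mul_I, mul_one,
        Complex.norm_real]
      rw [Real.norm_of_nonneg hr.1]
      exact hr.2.trans_lt hρR
    have h7 := h6.integrableOn_compact (μ := (volume : Measure (ℝ × ℝ)))
      (isCompact_Icc.prod isCompact_Icc)
    rw [Measure.volume_eq_prod] at h7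
    exact h7.mono_set (prod_mono Ioo_subset_Icc_self Ioo_subset_Icc_self)
  -- the inner integral
  have h8 : ∀ s ∈ Ioo 0 ρ, ∫ θ in Ioo (-π) π, s * f ((s:ℂ) * Complex.exp (θ * I)) =
      ∑' n : ℕ, 2 * π * (‖((n:ℂ) + 1) * e (n + 1)‖ ^ 2 * s ^ (2 * n + 1)) := by
    intro s hs
    have h9 := (parseval_deriv hE hs.1.le (hs.2.trans hρR)).mul_left (2 * π * s)
    have h10 : 2 * π * s * (1 / (2 * π) * ∫ θ in (-π)..π,
        ‖deriv E ((s:ℂ) * Complex.exp (θ * I))‖ ^ 2) =
        ∫ θ in Ioo (-π) π, s * f ((s:ℂ) * Complex.exp (θ * I)) := by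
      rw [integral_const_mul, intervalIntegral.integral_of_le (by linarith [Real.pi_pos]),
        integral_Ioc_eq_integral_Ioo]
      have hpi : 2 * π * s * (1 / (2 * π)) = s := by
        have : (2 * π) ≠ 0 := by positivity
        field_simp
      rw [← mul_assoc, hpi]
    rw [h10] at h9
    rw [← h9.tsum_eq]
    refine tsum_congr fun n => ?_
    simp only [he]
    ring
  rw [h1, setIntegral_congr_fun measurableSet_Ioo h8]
  -- integrate the series
  have h11 : ∀ n : ℕ, ∫ s in Ioo 0 ρ, 2 * π * (‖((n:ℂ) + 1) * e (n + 1)‖ ^ 2 * s ^ (2 * n + 1)) =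
      π * (((n:ℝ) + 1) * ρ ^ (2 * (n + 1)) * ‖e (n + 1)‖ ^ 2) := by
    intro n
    rw [integral_const_mul, integral_const_mul, ← integral_Ioc_eq_integral_Ioo,
      ← intervalIntegral.integral_of_le hρ.le, integral_pow, norm_mul]
    have h12 : ‖(n:ℂ) + 1‖ = (n:ℝ) + 1 := by
      have : ((n:ℂ) + 1) = (((n:ℝ) + 1 : ℝ) : ℂ) := by push_cast; rfl
      rw [this, Complex.norm_real, Real.norm_of_nonneg (by positivity)]
    rw [h12, zero_pow (by omega), sub_zero]
    push_cast
    have h13 : ((2:ℝ) * n + 1 + 1) ≠ 0 := by positivity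
    field_simp
    ring
  have h14 : ∀ N : ℕ, ∑ n ∈ Finset.range N,
      (((n:ℝ) + 1) * ρ ^ (2 * (n + 1)) * ‖e (n + 1)‖ ^ 2) ≤ c := by
    intro N
    have h15 := hc (N + 1)
    rw [Finset.sum_range_succ'] at h15
    simp only [Nat.cast_add, Nat.cast_one, Nat.cast_zero, zero_mul, add_zero] at h15
    exact h15
  have h16 : Summable fun n : ℕ => ((n:ℝ) + 1) * ρ ^ (2 * (n + 1)) * ‖e (n + 1)‖ ^ 2 :=
    summable_of_sum_range_le (fun n => by positivity) h14
  have h17 := hasSum_integral_of_summable_integral_norm (μ := volume.restrict (Ioo (0:ℝ) ρ))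
      (F := fun (n : ℕ) (s : ℝ) => 2 * π * (‖((n:ℂ) + 1) * e (n + 1)‖ ^ 2 * s ^ (2 * n + 1)))
      (fun n => by
        have : Continuous fun s : ℝ => 2 * π * (‖((n:ℂ) + 1) * e (n + 1)‖ ^ 2 * s ^ (2 * n + 1)) := by
          fun_prop
        exact (this.continuousOn.integrableOn_compact isCompact_Icc).mono_set Ioo_subset_Icc_self)
      (by
        refine (h16.mul_left π).congr fun n => ?_
        rw [← h11 n]
        apply setIntegral_congr_fun measurableSet_Ioo
        intro s hs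
        simp only
        rw [Real.norm_of_nonneg (by have := hs.1; positivity)])
  rw [← h17.tsum_eq]
  simp only [h11]
  rw [tsum_mul_left]
  exact mul_le_mul_of_nonneg_left (h16.tsum_le_of_sum_range_le h14) Real.pi_pos.le

end Pool.Agent.Helper39.EK
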