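import Mathlib

/-!
E2: the gradient of the logarithm of the Poisson kernel.
-/

set_option autoImplicit false

open Complex MeasureTheory Metric Set Filter Topology
open scoped Real ENNReal ComplexConjugate NNReal

namespace Pool.Agent.Helper39.EK

/-- twice the derivative `∂/∂z` of the logarithm of the Poisson kernel of the point `ζ` -/
noncomputable def Gk (z ζ : ℂ) : ℂ := 2 * (1 - conj z * ζ) / ((1 - ‖z‖ ^ 2 : ℝ) * (ζ - z))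

theorem one_sub_sq_pos {z : ℂ} (hz : ‖z‖ < 1) : 0 < 1 - ‖z‖ ^ 2 := by
  nlinarith [norm_nonneg z]

theorem sub_ne_of_norm {z ζ : ℂ} (hz : ‖z‖ < 1) (hζ : ‖ζ‖ = 1) : ζ - z ≠ 0 := by
  intro h
  rw [sub_eq_zero] at h
  rw [h] at hζ
  linarith

theorem pk_eq {z ζ : ℂ} (hζ : ‖ζ‖ = 1) :
    poissonKernel 0 z ζ = (1 - ‖z‖ ^ 2) / ‖ζ - z‖ ^ 2 := by
  rw [poissonKernel_def]
  simp [hζ]

theorem pk_pos {z ζ : ℂ} (hz : ‖z‖ < 1) (hζ : ‖ζ‖ = 1) : 0 < poissonKernel 0 z ζ := by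
  rw [pk_eq hζ]
  have h1 := one_sub_sq_pos hz
  have h2 : 0 < ‖ζ - z‖ := norm_pos_iff.mpr (sub_ne_of_norm hz hζ)
  positivity

theorem conj_mul_self_one {ζ : ℂ} (hζ : ‖ζ‖ = 1) : conj ζ * ζ = 1 := by
  rw [mul_comm, Complex.mul_conj, Complex.normSq_eq_norm_sq, hζ]
  norm_num

theorem one_sub_conj {z ζ : ℂ} (hζ : ‖ζ‖ = 1) : 1 - conj z * ζ = conj (ζ - z) * ζ := by
  rw [map_sub, sub_mul, conj_mul_self_one hζ]

theorem norm_Gk {z ζ : ℂ} (hz : ‖z‖ < 1) (hζ : ‖ζ‖ = 1) : ‖Gk z ζ‖ = 2 / (1 - ‖z‖ ^ 2) := by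
  have h1 := one_sub_sq_pos hz
  have h2 : 0 < ‖ζ - z‖ := norm_pos_iff.mpr (sub_ne_of_norm hz hζ)
  rw [Gk, one_sub_conj hζ, norm_div, norm_mul, norm_mul, norm_mul, RCLike.norm_conj, hζ,
    Complex.norm_real, Real.norm_of_nonneg h1.le, Complex.norm_ofNat]
  field_simp

theorem pk_mul_Gk {z ζ : ℂ} (hz : ‖z‖ < 1) (hζ : ‖ζ‖ = 1) :
    (poissonKernel 0 z ζ : ℂ) * Gk z ζ = 2 * ζ / (ζ - z) ^ 2 := by
  have h1 : ((1 - ‖z‖ ^ 2 : ℝ) : ℂ) ≠ 0 := by exact_mod_cast (one_sub_sq_pos hz).ne'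
  have h3 := sub_ne_of_norm hz hζ
  have h4 : ((‖ζ - z‖ ^ 2 : ℝ) : ℂ) = (ζ - z) * conj (ζ - z) := by
    rw [Complex.mul_conj, Complex.normSq_eq_norm_sq]
  have h5 : conj (ζ - z) ≠ 0 := by rwa [Ne, map_eq_zero]
  rw [pk_eq hζ, Gk, one_sub_conj hζ, Complex.ofReal_div, h4]
  field_simp

/-- the variance inequality at one point -/
theorem variance {μ : Measure ℂ} (p : ℂ → ℝ) (G : ℂ → ℂ) (b D : ℂ) (u c : ℝ)
    (hu : 0 < u) (hpi : Integrable p μ) (hpG : Integrable (fun ζ => (p ζ : ℂ) * G ζ) μ)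
    (hG : ∀ᵐ ζ ∂μ, ‖G ζ‖ ^ 2 = c)
    (hup : ∫ ζ, p ζ ∂μ = u) (hD : ∫ ζ, (p ζ : ℂ) * G ζ ∂μ = D) :
    c * u - ‖D‖ ^ 2 / u ≤ ∫ ζ, p ζ * ‖G ζ - b‖ ^ 2 ∂μ := by
  have h1 : ∀ᵐ ζ ∂μ, p ζ * ‖G ζ - b‖ ^ 2 =
      (c + ‖b‖ ^ 2) * p ζ - 2 * (((p ζ : ℂ) * G ζ) * conj b).re := by
    filter_upwards [hG] with ζ hζ
    have h2 : ‖G ζ - b‖ ^ 2 = ‖G ζ‖ ^ 2 + ‖b‖ ^ 2 - 2 * (G ζ * conj b).re := by
      rw [← Complex.normSq_eq_norm_sq, Complex.normSq_sub, Complex.normSq_eq_norm_sq,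
        Complex.normSq_eq_norm_sq]
    rw [h2, hζ, mul_assoc ((p ζ : ℂ)), Complex.re_ofReal_mul]
    ring
  rw [integral_congr_ae h1]
  have h3 : Integrable (fun ζ => (((p ζ : ℂ) * G ζ) * conj b).re) μ := (hpG.mul_const _).re
  rw [integral_sub (hpi.const_mul _) (h3.const_mul _), integral_const_mul, integral_const_mul,
    hup]
  have h4 : ∫ ζ, (((p ζ : ℂ) * G ζ) * conj b).re ∂μ = (D * conj b).re := by
    have h5 := integral_re (hpG.mul_const (conj b))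
    simp only [RCLike.re_to_complex] at h5
    rw [h5, integral_mul_const, hD]
  rw [h4]
  have h6 : (D * conj b).re ≤ ‖D‖ * ‖b‖ := by
    refine (Complex.re_le_norm _).trans ?_
    rw [norm_mul, RCLike.norm_conj]
  have h7 : ‖D‖ ^ 2 / u + ‖b‖ ^ 2 * u - 2 * (‖D‖ * ‖b‖) = (‖D‖ - u * ‖b‖) ^ 2 / u := by
    field_simp
    ring
  have h8 : 0 ≤ (‖D‖ - u * ‖b‖) ^ 2 / u := by positivity
  nlinarith

end Pool.Agent.Helper39.EK
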